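import Pool.Agent.Helper37.SU.Stmts

set_option autoImplicit false

/-!
Module NUM of the project SU (MP_aa31b4_an): the choice of the parameters.
-/

namespace Pool.Agent.Helper37.SU

open MeasureTheory Finset
open scoped ENNReal Classical

/-- polynomial against exponential -/
private lemma num_poly (b d K : ℕ) (hb : 2 ≤ b) : ∃ C : ℝ, 0 < C ∧ ∀ e : ℕ,
    (1 + ((K * e : ℕ) : ℝ)) ^ d ≤ C * (b : ℝ) ^ e := by
  have hb1 : (1 : ℝ) < b := by exact_mod_cast (by omega : 1 < b)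
  have hb0 : (0 : ℝ) < b := by linarith
  have ht := tendsto_pow_const_div_const_pow_of_one_lt d hb1
  obtain ⟨M, hM⟩ := ht.bddAbove_range
  have h1 : ∀ e : ℕ, ((e : ℝ)) ^ d ≤ M * (b : ℝ) ^ e := by
    intro e
    have := hM ⟨e, rfl⟩
    rwa [div_le_iff₀ (by positivity)] at this
  refine ⟨(1 + K) ^ d * (|M| + 1) * b, by positivity, fun e => ?_⟩
  have h2 : (1 + ((K * e : ℕ) : ℝ)) ≤ (1 + K) * ((e + 1 : ℕ) : ℝ) := by
    have := Nat.cast_nonneg (α := ℝ) K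
    have := Nat.cast_nonneg (α := ℝ) e
    push_cast
    nlinarith
  have h3 : M ≤ |M| + 1 := by linarith [le_abs_self M]
  calc (1 + ((K * e : ℕ) : ℝ)) ^ d ≤ ((1 + K) * ((e + 1 : ℕ) : ℝ)) ^ d := by gcongr
    _ = (1 + K : ℝ) ^ d * ((e + 1 : ℕ) : ℝ) ^ d := mul_pow _ _ _
    _ ≤ (1 + K : ℝ) ^ d * (M * (b : ℝ) ^ (e + 1)) := by
        gcongr
        exact h1 _
    _ ≤ (1 + K : ℝ) ^ d * ((|M| + 1) * (b : ℝ) ^ (e + 1)) := by gcongr
    _ = (1 + K) ^ d * (|M| + 1) * b * (b : ℝ) ^ e := by rw [pow_succ]; ring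

private lemma num_ell_hi (b d n : ℕ) (hb : 2 ≤ b) (hn : 1 ≤ n) :
    b ^ ell b d n ≤ b * n ^ (d - 1) := by
  unfold ell
  have hN : 1 ≤ n ^ (d - 1) := Nat.one_le_pow _ _ hn
  rcases Nat.lt_or_ge 1 (n ^ (d - 1)) with h | h
  · have h2 := Nat.pow_pred_clog_lt_self (by omega : 1 < b) h
    have h3 : 0 < Nat.clog b (n ^ (d - 1)) := Nat.clog_pos (by omega) h
    have h4 : Nat.clog b (n ^ (d - 1)) = (Nat.clog b (n ^ (d - 1))).pred + 1 := by
      rw [Nat.pred_eq_sub_one]; omega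
    rw [h4, pow_succ, mul_comm]
    exact Nat.mul_le_mul_left b h2.le
  · have h2 : n ^ (d - 1) = 1 := le_antisymm h hN
    rw [h2]
    simp only [Nat.clog_one_right, pow_zero, mul_one]
    omega

private lemma num_ell_lo (b d n : ℕ) (hb : 2 ≤ b) : n ^ (d - 1) ≤ b ^ ell b d n := by
  unfold ell
  exact Nat.le_pow_clog (by omega) _

private lemma num_large (b d K : ℕ) (hb : 2 ≤ b) : ∃ n₂ : ℕ, 2 ≤ n₂ ∧ ∀ n : ℕ, n₂ ≤ n →
    K * ell b d n ≤ n := by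
  have hb1 : (1 : ℝ) < b := by exact_mod_cast (by omega : 1 < b)
  have hb0 : (0 : ℝ) < b := by linarith
  have ht := tendsto_pow_const_div_const_pow_of_one_lt ((d - 1) * K) hb1
  have h0 : (0 : ℝ) < 1 / (b : ℝ) ^ K := by positivity
  obtain ⟨n₂, hn₂⟩ := Filter.eventually_atTop.1 (ht.eventually (gt_mem_nhds h0))
  refine ⟨max 2 n₂, le_max_left _ _, fun n hn => ?_⟩
  have hn2 : 2 ≤ n := le_trans (le_max_left _ _) hn
  have h1 := hn₂ n (le_trans (le_max_right _ _) hn)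
  by_contra hcon
  push Not at hcon
  have h2 : b ^ n ≤ b ^ K * n ^ ((d - 1) * K) := by
    calc b ^ n ≤ b ^ (K * ell b d n) := Nat.pow_le_pow_right (by omega) hcon.le
      _ = (b ^ ell b d n) ^ K := by rw [mul_comm, pow_mul]
      _ ≤ (b * n ^ (d - 1)) ^ K := Nat.pow_le_pow_left (num_ell_hi b d n hb (by omega)) _
      _ = b ^ K * n ^ ((d - 1) * K) := by rw [mul_pow, ← pow_mul]
  have h3 : (b : ℝ) ^ n ≤ (b : ℝ) ^ K * (n : ℝ) ^ ((d - 1) * K) := by exact_mod_cast h2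
  have h4 : (0 : ℝ) < (b : ℝ) ^ n := by positivity
  have h5 : (0 : ℝ) < (b : ℝ) ^ K := by positivity
  rw [div_lt_div_iff₀ h4 h5] at h1
  nlinarith

private lemma num_union (f : ℕ → ℝ) (hf : ∀ l, 0 ≤ f l) (A B : Finset ℕ) :
    ∑ l ∈ A ∪ B, f l ≤ ∑ l ∈ A, f l + ∑ l ∈ B, f l := by
  rw [← Finset.sum_union_inter]
  have : 0 ≤ ∑ l ∈ A ∩ B, f l := Finset.sum_nonneg fun l _ => hf l
  linarith

private lemma num_split (f : ℕ → ℝ) (hf : ∀ l, 0 ≤ f l) (a n M : ℕ) :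
    ∑ l ∈ range (M + 1), f l ≤
      ∑ l ∈ range a, f l + ∑ l ∈ Icc a n, f l + ∑ l ∈ Ioc n M, f l := by
  calc ∑ l ∈ range (M + 1), f l ≤ ∑ l ∈ (range a ∪ Icc a n) ∪ Ioc n M, f l := by
        apply Finset.sum_le_sum_of_subset_of_nonneg
        · intro x hx
          simp only [mem_range, mem_union, mem_Icc, mem_Ioc] at hx ⊢
          omega
        · intro x _ _
          exact hf x
    _ ≤ ∑ l ∈ range a ∪ Icc a n, f l + ∑ l ∈ Ioc n M, f l := num_union f hf _ _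
    _ ≤ _ := by
        have := num_union f hf (range a) (Icc a n)
        linarith

private lemma num_TB_nonneg (b d n₀ n₃ n m : ℕ) (v θ ε : ℝ) (l l' : ℕ) :
    0 ≤ TB b d n₀ n₃ n m v θ ε l l' := by
  unfold TB
  split_ifs <;> positivity

/-- the choice of the parameters -/
theorem st_NUM (h1 : ST_NLO) (h2 : ST_NHI) (h3 : ST_NMI) (h4 : ST_NFA) : ST_NUM := by
  intro b d γ v q θ ε κ hb hd hγ hv hv2 hq hθ hθ2 hε hκ hκ1 hpow
  obtain ⟨C1, hC1, H1⟩ := h1 b d γ v q hb hγ hv (by linarith)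
  obtain ⟨C2, hC2, H2⟩ := h2 b d γ v q hb hγ hv (by linarith)
  obtain ⟨C3, hC3, H3⟩ := h3 b γ θ q hb hγ hθ hθ2 hq
  obtain ⟨C4, hC4, H4⟩ := h4 b d γ q hb hγ (by linarith)
  have hq0 : 0 < q := by linarith
  have hδ : 0 < 1 / v - 1 / q := by
    rw [sub_pos]
    exact one_div_lt_one_div_of_lt (by linarith) (by linarith)
  obtain ⟨K0, hK0⟩ := exists_nat_ge ((1 + (γ + 1 / q)) / (1 / v - 1 / q))
  obtain ⟨K3, hK3⟩ := exists_nat_ge (((d : ℝ) + (1 + K0) / q) / γ)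
  rw [div_le_iff₀ hδ] at hK0
  rw [div_le_iff₀ hγ] at hK3
  obtain ⟨C5, hC5, H5⟩ := num_poly b d K0 hb
  obtain ⟨n2, hn2, H6⟩ := num_large b d (K0 + 1) hb
  have hb1 : (1 : ℝ) < b := by exact_mod_cast (by omega : 1 < b)
  have hb0 : (0 : ℝ) < b := by linarith
  refine ⟨K0, K3, C1 * C5 + C3 * (b : ℝ) ^ γ + C4 * (3 + K3) ^ d + C2, n2, by positivity,
    fun n L hn => ?_⟩
  intro m n₁ n₀ n₃
  -- the logarithms
  have hn0 : 2 ≤ n := le_trans hn2 hn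
  have hnR : (1 : ℝ) ≤ n := by exact_mod_cast (by omega : 1 ≤ n)
  have hnR0 : (0 : ℝ) < n := by linarith
  set s : ℝ := Real.logb b n with hs
  have hs0 : 0 ≤ s := Real.logb_nonneg hb1 hnR
  have hns : (n : ℝ) = (b : ℝ) ^ s := (Real.rpow_logb hb0 hb1.ne' hnR0).symm
  set t : ℝ := ((d : ℝ) - 1) * s with htdef
  have hd1 : (1 : ℝ) ≤ (d : ℝ) - 1 := by
    have : (2 : ℝ) ≤ d := by exact_mod_cast hd
    linarith
  have hst : s ≤ t := by rw [htdef]; nlinarith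
  have hNt : (n : ℝ) ^ (d - 1) = (b : ℝ) ^ t := by
    rw [hns, ← Real.rpow_natCast, ← Real.rpow_mul hb0.le, htdef, Nat.cast_sub (by omega), mul_comm]
    simp
  have hlogN : Real.logb b ((n : ℝ) ^ (d - 1)) = t := by
    rw [hNt]
    exact Real.logb_rpow hb0 hb1.ne'
  set e : ℕ := ell b d n with he
  set k : ℕ := k0 b d κ n with hk
  have het : t ≤ e := by
    have h := num_ell_lo b d n hb
    have h' : (b : ℝ) ^ t ≤ (b : ℝ) ^ (e : ℝ) := by
      rw [← hNt, Real.rpow_natCast]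
      exact_mod_cast h
    exact (Real.rpow_le_rpow_left_iff hb1).1 h'
  have het2 : (e : ℝ) ≤ t + 1 := by
    have h := num_ell_hi b d n hb (by omega)
    have h' : (b : ℝ) ^ (e : ℝ) ≤ (b : ℝ) ^ (t + 1) := by
      rw [Real.rpow_add hb0, Real.rpow_one, ← hNt, Real.rpow_natCast, mul_comm]
      exact_mod_cast h
    exact (Real.rpow_le_rpow_left_iff hb1).1 h'
  have ht0 : 0 ≤ t := le_trans hs0 hst
  have hkt : κ * t ≤ k := by
    rw [hk, k0, hlogN]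
    exact Nat.le_ceil _
  have hkt2 : (k : ℝ) ≤ κ * t + 1 := by
    rw [hk, k0, hlogN]
    exact (Nat.ceil_lt_add_one (by positivity)).le
  have hke : k ≤ e := by
    rw [hk, k0, hlogN, Nat.ceil_le]
    nlinarith
  have hen : (K0 + 1) * e ≤ n := H6 n hn
  have hen' : K0 * e + e ≤ n := by
    have : (K0 + 1) * e = K0 * e + e := by ring
    omega
  -- real forms of the parameters
  have hm : m = n + k := rfl
  have hn1 : n₁ = m - e := rfl
  have hn0' : n₀ = n₁ - K0 * e := rfl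
  have hn3 : n₃ = m + K3 * e := rfl
  have hn1e : n₁ + e = n + k := by omega
  have hn0e : n₀ + K0 * e + e = n + k := by omega
  have hn01 : n₀ ≤ n₁ := by omega
  have hsub : n₁ - n₀ = K0 * e := by omega
  have hn1R : (n₁ : ℝ) = n + k - e := by
    have : ((n₁ + e : ℕ) : ℝ) = ((n + k : ℕ) : ℝ) := by rw [hn1e]
    push_cast at this
    linarith
  have hn0R : (n₀ : ℝ) = n + k - e - K0 * e := by
    have : ((n₀ + K0 * e + e : ℕ) : ℝ) = ((n + k : ℕ) : ℝ) := by rw [hn0e]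
    push_cast at this
    linarith
  have hmR : (m : ℝ) = n + k := by rw [hm]; push_cast; ring
  have hn3R : (n₃ : ℝ) = n + k + K3 * e := by rw [hn3, hm]; push_cast; ring
  have hnn3 : n ≤ n₃ := by rw [hn3, hm]; exact le_trans (Nat.le_add_right _ _) (Nat.le_add_right _ _)
  clear_value m n₁ n₀ n₃
  have hkR : (0 : ℝ) ≤ k := Nat.cast_nonneg _
  have heR : (0 : ℝ) ≤ e := Nat.cast_nonneg _
  have hkeR : (k : ℝ) ≤ e := by exact_mod_cast hke
  have hK0R : (0 : ℝ) ≤ K0 := Nat.cast_nonneg _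
  have hK3R : (0 : ℝ) ≤ K3 := Nat.cast_nonneg _
  have hq1 : 0 < 1 / q := by positivity
  -- the split
  set F : ℕ → ℕ → ℝ := fun l l' => (b : ℝ) ^ (-((l : ℝ) / q)) * (b : ℝ) ^ (-((l' : ℝ) * γ)) *
        TB b d n₀ n₃ n m v θ ε l l' with hF
  have hFn : ∀ l, 0 ≤ ∑ l' ∈ Ioc n₁ L, F l l' := by
    intro l
    apply Finset.sum_nonneg
    intro l' _
    rw [hF]
    have := num_TB_nonneg b d n₀ n₃ n m v θ ε l l'
    positivity
  have hsplit := num_split (fun l => ∑ l' ∈ Ioc n₁ L, F l l') hFn n₀ n (L + 2 * d)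
  -- part (i)
  have P1 : ∑ l ∈ range n₀, ∑ l' ∈ Ioc n₁ L, F l l' ≤
      C1 * C5 * (b : ℝ) ^ (-((n : ℝ) * (γ + 1 / q))) := by
    have h : ∑ l ∈ range n₀, ∑ l' ∈ Ioc n₁ L, F l l' =
        ∑ l ∈ range n₀, ∑ l' ∈ Ioc n₁ L, (b : ℝ) ^ (-((l : ℝ) / q)) *
          (b : ℝ) ^ (-((l' : ℝ) * γ)) *
          ((1 + ((l' - l : ℕ) : ℝ)) ^ d * (b : ℝ) ^ (-(((l' - l : ℕ) : ℝ) / v))) := by
      apply Finset.sum_congr rfl
      intro l hl
      apply Finset.sum_congr rfl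
      intro l' hl'
      rw [mem_range] at hl
      rw [mem_Ioc] at hl'
      rw [hF]
      simp only [TB]
      rw [if_neg (by omega), if_pos (by omega)]
    rw [h]
    refine (H1 n₀ n₁ L hn01).trans ?_
    rw [hsub]
    have hx : C1 * (1 + ((K0 * e : ℕ) : ℝ)) ^ d * (b : ℝ) ^ (-((n₁ : ℝ) * (γ + 1 / q))) *
        (b : ℝ) ^ (-(((K0 * e : ℕ) : ℝ) * (1 / v - 1 / q))) ≤
        C1 * (C5 * (b : ℝ) ^ (e : ℝ)) * (b : ℝ) ^ (-((n₁ : ℝ) * (γ + 1 / q))) *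
        (b : ℝ) ^ (-(((K0 * e : ℕ) : ℝ) * (1 / v - 1 / q))) := by
      have := H5 e
      rw [← Real.rpow_natCast (b : ℝ) e] at this
      gcongr
    refine hx.trans ?_
    have hy : C1 * (C5 * (b : ℝ) ^ (e : ℝ)) * (b : ℝ) ^ (-((n₁ : ℝ) * (γ + 1 / q))) *
        (b : ℝ) ^ (-(((K0 * e : ℕ) : ℝ) * (1 / v - 1 / q))) =
        C1 * C5 * (b : ℝ) ^ ((e : ℝ) + -((n₁ : ℝ) * (γ + 1 / q)) +
          -(((K0 * e : ℕ) : ℝ) * (1 / v - 1 / q))) := by
      rw [Real.rpow_add hb0, Real.rpow_add hb0]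
      ring
    rw [hy]
    apply mul_le_mul_of_nonneg_left _ (by positivity)
    apply Real.rpow_le_rpow_of_exponent_le hb1.le
    rw [hn1R]
    push_cast
    have e1 : (1 + (γ + 1 / q)) * e ≤ K0 * (1 / v - 1 / q) * e := by gcongr
    have e2 : 0 ≤ (k : ℝ) * (γ + 1 / q) := by positivity
    nlinarith
  -- part (ii)
  have P2 : ∑ l ∈ Ioc n (L + 2 * d), ∑ l' ∈ Ioc n₁ L, F l l' ≤
      C2 * (b : ℝ) ^ (-((n : ℝ) * (γ + 1 / q))) := by
    refine le_trans ?_ (H2 n L (L + 2 * d))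
    apply Finset.sum_le_sum
    intro l hl
    rw [mem_Ioc] at hl
    have h : ∑ l' ∈ Ioc n₁ L, F l l' = ∑ l' ∈ (Ioc n₁ L).filter (fun l' => l ≤ l' + 2 * d),
        (b : ℝ) ^ (-((l : ℝ) / q)) * (b : ℝ) ^ (-((l' : ℝ) * γ)) *
          ((1 + ((l' - l : ℕ) : ℝ)) ^ d * (b : ℝ) ^ (-(((l' - l : ℕ) : ℝ) / v))) := by
      rw [Finset.sum_filter]
      apply Finset.sum_congr rfl
      intro l' hl'
      rw [hF]
      simp only [TB]
      rw [if_neg (by omega)]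
      split_ifs
      · rfl
      · simp
    rw [h]
    apply Finset.sum_le_sum_of_subset_of_nonneg
    · intro l' hl'
      simp only [mem_filter, mem_Ioc, mem_range] at hl' ⊢
      omega
    · intro l' _ _
      positivity
  -- part (iii)
  have P3 : ∑ l ∈ Icc n₀ n, ∑ l' ∈ Ioc n₁ L, F l l' ≤
      (C3 * (b : ℝ) ^ γ + C4 * (3 + K3) ^ d) * (b : ℝ) ^ (-((n : ℝ) * (γ + 1 / q))) := by
    have hpt : ∀ l ∈ Icc n₀ n, ∑ l' ∈ Ioc n₁ L, F l l' ≤
        (n : ℝ) ^ ε * ∑ l' ∈ Ioc n₁ L, (b : ℝ) ^ (-((l : ℝ) / q)) *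
          (b : ℝ) ^ (-((l' : ℝ) * γ)) * (((b : ℝ) ^ l / (b : ℝ) ^ m) *
          (((n : ℝ) ^ (d - 1) + (b : ℝ) ^ m / (b : ℝ) ^ l) *
            ((n : ℝ) ^ (d - 1) + (b : ℝ) ^ m / (b : ℝ) ^ l')) ^ θ) +
        ∑ l' ∈ Ioc n₃ L, (b : ℝ) ^ (-((l : ℝ) / q)) * (b : ℝ) ^ (-((l' : ℝ) * γ)) *
          (1 + (l : ℝ) + l') ^ d := by
      intro l hl
      rw [mem_Icc] at hl
      have ha : ∑ l' ∈ Ioc n₁ L, F l l' ≤ ∑ l' ∈ Ioc n₁ L,
          ((n : ℝ) ^ ε * ((b : ℝ) ^ (-((l : ℝ) / q)) *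
          (b : ℝ) ^ (-((l' : ℝ) * γ)) * (((b : ℝ) ^ l / (b : ℝ) ^ m) *
          (((n : ℝ) ^ (d - 1) + (b : ℝ) ^ m / (b : ℝ) ^ l) *
            ((n : ℝ) ^ (d - 1) + (b : ℝ) ^ m / (b : ℝ) ^ l')) ^ θ)) +
          (if n₃ < l' then (b : ℝ) ^ (-((l : ℝ) / q)) * (b : ℝ) ^ (-((l' : ℝ) * γ)) *
            (1 + (l : ℝ) + l') ^ d else 0)) := by
        apply Finset.sum_le_sum
        intro l' hl'
        rw [hF]
        simp only [TB]
        rw [if_pos hl]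
        rcases Nat.lt_or_ge n₃ l' with h | h
        · rw [if_neg (by omega), if_pos h]
          have : 0 ≤ (n : ℝ) ^ ε * ((b : ℝ) ^ (-((l : ℝ) / q)) *
            (b : ℝ) ^ (-((l' : ℝ) * γ)) * (((b : ℝ) ^ l / (b : ℝ) ^ m) *
            (((n : ℝ) ^ (d - 1) + (b : ℝ) ^ m / (b : ℝ) ^ l) *
              ((n : ℝ) ^ (d - 1) + (b : ℝ) ^ m / (b : ℝ) ^ l')) ^ θ)) := by positivity
          linarith
        · rw [if_pos h, if_neg (by omega)]
          apply le_of_eq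
          ring
      refine ha.trans ?_
      rw [Finset.sum_add_distrib, ← Finset.mul_sum, ← Finset.sum_filter]
      have hb' : ∑ l' ∈ (Ioc n₁ L).filter (fun l' => n₃ < l'), (b : ℝ) ^ (-((l : ℝ) / q)) *
            (b : ℝ) ^ (-((l' : ℝ) * γ)) * (1 + (l : ℝ) + l') ^ d ≤
          ∑ l' ∈ Ioc n₃ L, (b : ℝ) ^ (-((l : ℝ) / q)) * (b : ℝ) ^ (-((l' : ℝ) * γ)) *
          (1 + (l : ℝ) + l') ^ d := by
        apply Finset.sum_le_sum_of_subset_of_nonneg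
        · intro l' hl'
          simp only [mem_filter, mem_Ioc] at hl' ⊢
          omega
        · intro l' _ _
          positivity
      linarith
    refine (Finset.sum_le_sum hpt).trans ?_
    rw [Finset.sum_add_distrib, ← Finset.mul_sum]
    have hN1 : (1 : ℝ) ≤ (n : ℝ) ^ (d - 1) := one_le_pow₀ hnR
    have c1 : (b : ℝ) ^ m ≤ b * (n : ℝ) ^ (d - 1) * (b : ℝ) ^ n := by
      rw [hNt, ← Real.rpow_natCast, ← Real.rpow_natCast, hmR]
      nth_rewrite 2 [← Real.rpow_one (b : ℝ)]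
      rw [← Real.rpow_add hb0, ← Real.rpow_add hb0]
      apply Real.rpow_le_rpow_of_exponent_le hb1.le
      nlinarith
    have c2 : (b : ℝ) ^ m ≤ b * (n : ℝ) ^ (d - 1) * (b : ℝ) ^ n₁ := by
      rw [hNt, ← Real.rpow_natCast, ← Real.rpow_natCast, hmR, hn1R]
      nth_rewrite 2 [← Real.rpow_one (b : ℝ)]
      rw [← Real.rpow_add hb0, ← Real.rpow_add hb0]
      apply Real.rpow_le_rpow_of_exponent_le hb1.le
      linarith
    have hA := H3 n₀ n₁ n m L ((n : ℝ) ^ (d - 1)) hN1 (by omega) c1 c2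
    have hB := H4 n₀ n₃ n L hnn3
    have hA' : (n : ℝ) ^ ε * (C3 * ((n : ℝ) ^ (d - 1)) ^ (2 * θ) * ((b : ℝ) ^ n / (b : ℝ) ^ m) *
        (b : ℝ) ^ (-((n : ℝ) / q)) * (b : ℝ) ^ (-((n₁ : ℝ) * γ))) ≤
        C3 * (b : ℝ) ^ γ * (b : ℝ) ^ (-((n : ℝ) * (γ + 1 / q))) := by
      have r1 : (n : ℝ) ^ ε = (b : ℝ) ^ (s * ε) := by
        rw [hns, ← Real.rpow_mul hb0.le]
      have r2 : ((n : ℝ) ^ (d - 1)) ^ (2 * θ) = (b : ℝ) ^ (t * (2 * θ)) := by
        rw [hNt, ← Real.rpow_mul hb0.le]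
      have r3 : (b : ℝ) ^ n / (b : ℝ) ^ m = (b : ℝ) ^ ((n : ℝ) - m) := by
        rw [Real.rpow_sub hb0, Real.rpow_natCast, Real.rpow_natCast]
      rw [r1, r2, r3]
      have r4 : (b : ℝ) ^ (s * ε) * (C3 * (b : ℝ) ^ (t * (2 * θ)) * (b : ℝ) ^ ((n : ℝ) - m) *
          (b : ℝ) ^ (-((n : ℝ) / q)) * (b : ℝ) ^ (-((n₁ : ℝ) * γ))) =
          C3 * (b : ℝ) ^ (s * ε + t * (2 * θ) + ((n : ℝ) - m) + -((n : ℝ) / q) +
            -((n₁ : ℝ) * γ)) := by
        rw [Real.rpow_add hb0, Real.rpow_add hb0, Real.rpow_add hb0, Real.rpow_add hb0]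
        ring
      rw [r4, mul_assoc C3, ← Real.rpow_add hb0]
      apply mul_le_mul_of_nonneg_left _ hC3.le
      apply Real.rpow_le_rpow_of_exponent_le hb1.le
      rw [hmR, hn1R]
      have e1 : (e : ℝ) * γ ≤ (t + 1) * γ := by gcongr
      have e2 : κ * t * (1 + γ) ≤ k * (1 + γ) := by gcongr
      have e3 : s * (((d : ℝ) - 1) * (2 * θ - κ + (1 - κ) * γ) + ε) ≤ 0 :=
        mul_nonpos_of_nonneg_of_nonpos hs0 hpow
      have e4 : s * (((d : ℝ) - 1) * (2 * θ - κ + (1 - κ) * γ) + ε) =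
          t * (2 * θ - κ + (1 - κ) * γ) + s * ε := by rw [htdef]; ring
      rw [e4] at e3
      have e5 : (n : ℝ) * (γ + 1 / q) = n * γ + n / q := by ring
      rw [e5]
      nlinarith
    have hB' : C4 * (1 + (n₃ : ℝ)) ^ d * (b : ℝ) ^ (-((n₀ : ℝ) / q)) *
        (b : ℝ) ^ (-((n₃ : ℝ) * γ)) ≤
        C4 * (3 + K3) ^ d * (b : ℝ) ^ (-((n : ℝ) * (γ + 1 / q))) := by
      have hle : (e : ℝ) ≤ n := by
        exact_mod_cast (by omega : e ≤ n)
      have r1 : (1 + (n₃ : ℝ)) ≤ (3 + K3) * n := by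
        rw [hn3R]
        nlinarith
      have r2 : (1 + (n₃ : ℝ)) ^ d ≤ (3 + K3) ^ d * (b : ℝ) ^ (s * d) := by
        calc (1 + (n₃ : ℝ)) ^ d ≤ ((3 + K3) * n) ^ d := by gcongr
          _ = (3 + K3) ^ d * (b : ℝ) ^ (s * d) := by
            rw [mul_pow]
            congr 1
            rw [hns, ← Real.rpow_natCast, ← Real.rpow_mul hb0.le]
      calc C4 * (1 + (n₃ : ℝ)) ^ d * (b : ℝ) ^ (-((n₀ : ℝ) / q)) *
          (b : ℝ) ^ (-((n₃ : ℝ) * γ)) ≤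
          C4 * ((3 + K3) ^ d * (b : ℝ) ^ (s * d)) * (b : ℝ) ^ (-((n₀ : ℝ) / q)) *
          (b : ℝ) ^ (-((n₃ : ℝ) * γ)) := by gcongr
        _ = C4 * (3 + K3) ^ d * (b : ℝ) ^ (s * d + -((n₀ : ℝ) / q) + -((n₃ : ℝ) * γ)) := by
          rw [Real.rpow_add hb0, Real.rpow_add hb0]
          ring
        _ ≤ _ := by
          apply mul_le_mul_of_nonneg_left _ (by positivity)
          apply Real.rpow_le_rpow_of_exponent_le hb1.le
          rw [hn0R, hn3R]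
          have e1 : ((d : ℝ) + (1 + K0) / q) * e ≤ K3 * γ * e := by gcongr
          have e2 : s * d ≤ d * e := by
            have : s ≤ e := hst.trans het
            nlinarith
          have e3 : 0 ≤ (k : ℝ) * γ := by positivity
          have e4 : 0 ≤ (k : ℝ) / q := by positivity
          have e5 : ((n : ℝ) + k - e - K0 * e) / q = n / q + k / q - (1 + K0) / q * e := by ring
          have e6 : (n : ℝ) * (γ + 1 / q) = n * γ + n / q := by ring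
          rw [e5, e6]
          nlinarith
    have hnε : 0 ≤ (n : ℝ) ^ ε := by positivity
    have hA'' := mul_le_mul_of_nonneg_left hA hnε
    calc _ ≤ C3 * (b : ℝ) ^ γ * (b : ℝ) ^ (-((n : ℝ) * (γ + 1 / q))) +
          C4 * (3 + K3) ^ d * (b : ℝ) ^ (-((n : ℝ) * (γ + 1 / q))) :=
          add_le_add (hA''.trans hA') (hB.trans hB')
      _ = _ := by ring
  calc _ ≤ _ := hsplit
    _ ≤ C1 * C5 * (b : ℝ) ^ (-((n : ℝ) * (γ + 1 / q))) +
        (C3 * (b : ℝ) ^ γ + C4 * (3 + K3) ^ d) * (b : ℝ) ^ (-((n : ℝ) * (γ + 1 / q))) +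
        C2 * (b : ℝ) ^ (-((n : ℝ) * (γ + 1 / q))) := add_le_add (add_le_add P1 P3) P2
    _ = _ := by ring

end Pool.Agent.Helper37.SU
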